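import Pool.Agent.P.MP_1bacd4_an.CO.Limit
import Pool.Agent.P.MP_1bacd4_an.CO.Cross
import Pool.Agent.P.MP_1bacd4_an.CO.Scal
import Pool.Agent.P.MP_1bacd4_an.Exist

set_option autoImplicit false

namespace Pool.Agent.Results.MP_1bacd4_an.Continuum

open Pool.Agent.P.MP_1bacd4_an Pool.Agent.P.MP_1bacd4_an.CO

/-- Over the real and over the complex field there is a family, indexed by the Cantor set, of
separable infinite dimensional Schur spaces such that every operator on one of them is a scalar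
plus a nuclear operator and every operator between two different ones is nuclear. -/
theorem result (𝕜 : Type) [RCLike 𝕜] :
    ∃ (X : (ℕ → Bool) → Type) (_ : ∀ σ, NormedAddCommGroup (X σ))
      (_ : ∀ σ, NormedSpace 𝕜 (X σ)),
      (∀ σ, CompleteSpace (X σ) ∧ ¬ FiniteDimensional 𝕜 (X σ) ∧
        TopologicalSpace.SeparableSpace (X σ) ∧ HasSchur 𝕜 (X σ) ∧
        ∀ T : X σ →L[𝕜] X σ, ∃ c : 𝕜, IsNuclearMap 𝕜 fun x => T x - c • x) ∧
      ∀ σ τ, σ ≠ τ → ∀ T : X σ →L[𝕜] X τ, IsNuclearMap 𝕜 T := by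
  have hR : S_Rand := rand (exist (iso conc mom net) (dec net (chain conc mom)) (decoup mom))
  obtain ⟨X, Y, _, _, _, _, _, β, C, h, hx⟩ := family cube adm
    (stepA (lift cube) push (pushCT cube) pushBil)
    (stepB cube (lift cube) push (pushCT cube) pushBil (seed cube (ext cube)) hR) lim
  choose E n1 n2 n3 i p q hE using fun σ => exists_ext 𝕜 (X σ)
  refine ⟨E, n1, n2, fun σ => ?_, fun σ τ hn => nuc_two (hE σ) (hE τ)
    (nuc_prod (h σ).1 (h τ).1 (h τ).2 (hx τ σ hn.symm))⟩
  have := sepP (h σ).1.chain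
  refine ⟨n3 σ, (hE σ).infdim (realSol (h σ).1).1, (hE σ).sep, fun x a hx => ?_,
    (hE σ).nuc (realSol (h σ).1).2⟩
  rw [← tendsto_sub_nhds_zero_iff]
  refine (hE σ).schur (schurP adm (h σ).1.chain) _ fun f => ?_
  simp only [map_sub]
  exact tendsto_sub_nhds_zero_iff.2 (hx f)

end Pool.Agent.Results.MP_1bacd4_an.Continuum
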